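import Mathlib
import Pool.Agent.QRPoset.Upper
import Pool.Agent.QRPoset.Lower
import Pool.Agent.QRPoset.ZChain

/-!
# MP_d59f30_al, Q1: polynomial divergence does not determine the height of the QR-poset

The group `G = F₃ ⋊ ℤ` (`a ↦ a`, `b ↦ b a`, `c ↦ c b`; this is Macura's group with presentation
`⟨t, a, b, c | t a = a t, t b t⁻¹ = b a, t c t⁻¹ = c b⟩`) has divergence `≍ n³`, but its QR-poset
contains a chain of order type `ℤ`: with `α i` the ray `n ↦ cⁱ tⁿ` one has `α i ≺ α (i + 1)` for
all `i : ℤ`. So the height of `P(G)` is infinite and not `3`.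
-/

namespace Pool.Agent.Results.MP_d59f30_al.CubicInfiniteHeight

open QRPoset

/-- Q1 is false: there is a finitely generated group with divergence `≍ n ^ 3` such that, for every
model `X` of its Cayley graph, the QR-poset `P(X)` contains a chain of order type `ℤ`; so its
height is `∞ ≠ 3`. -/
theorem result :
    ∃ (G : Type) (_ : Group G) (S : Set G),
      S.Finite ∧ Subgroup.closure S = ⊤ ∧ PolyDivergence S 3 ∧
      (∃ (X : Type) (_ : MetricSpace X) (ι : G → X), CayleyModel S ι) ∧
      ∀ (X : Type) (_ : MetricSpace X) (ι : G → X), CayleyModel S ι →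
        (∃ f : ℤ → Poset X, StrictMono f) ∧ height (Poset X) = ⊤ := by
  refine ⟨GG, inferInstance, SS, ?_, closure_SS, ?_, exists_cayleyModel closure_SS, ?_⟩
  · unfold SS; exact Set.toFinite _
  · intro γ δ h1 h2 h3
    exact ⟨div_upper γ δ h1 h2 h3, div_lower γ δ h1 h2 h3⟩
  · intro X _ ι h
    exact ⟨exists_int_chain h, height_eq_top (exists_int_chain h)⟩

end Pool.Agent.Results.MP_d59f30_al.CubicInfiniteHeight
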